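import Pool.Agent.SPM.Many92

/-!
# MP_7a4c99_nt: many sum = product sequences for almost all sizes

For every `A` there is a `c > 0` such that all `k` in `[2, x]`, up to `O(x / (log x) ^ A)` exceptions, have at least
`(log x) ^ c` sum = product multisets of size `k`. The question whether `N k > 2` for all `k > 6324` is not settled.
-/

set_option autoImplicit false

namespace Pool.Agent.Results.MP_7a4c99_nt.ManySolutions

/-- `s` is a multiset of `k` positive integers whose product equals its sum -/
def IsSP (k : ℕ) (s : Multiset ℕ) : Prop := s.card = k ∧ (∀ a ∈ s, 0 < a) ∧ s.prod = s.sum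

/-- the number of sum = product multisets of size `k` -/
noncomputable def N (k : ℕ) : ℕ := {s : Multiset ℕ | IsSP k s}.ncard

/-- For `k ≥ 2` there are finitely many sum = product multisets of size `k`. -/
theorem finite (k : ℕ) (hk : 2 ≤ k) : {s : Multiset ℕ | IsSP k s}.Finite := Pool.Agent.SPM.Sol46.fin hk

/-- For every `A` there are `c > 0` and `B` such that for all `x ≥ 2` at most `B x / (log x) ^ A` of the integers
`k` in `[2, x]` have `N k < (log x) ^ c`. -/
theorem result (A : ℕ) : ∃ c B : ℝ, 0 < c ∧ ∀ x : ℕ, 2 ≤ x →
    (((Finset.Icc 2 x).filter (fun k => (N k : ℝ) < Real.log x ^ c)).card : ℝ) ≤ B * x / Real.log x ^ A :=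
  Pool.Agent.SPM.main2_92 A

end Pool.Agent.Results.MP_7a4c99_nt.ManySolutions
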